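import Pool.Agent.Helper62.Comm.Words
import Pool.Agent.Helper57.Reduce

set_option autoImplicit false

/-! # The initial state (MP_76db9d_al, handoff 53) -/

namespace Pool.Agent.Helper62.Comm

open Pool.Agent.Helper7.Comm Pool.Agent.Helper7.Comm.NC Pool.Agent.Helper57.Reduce
open scoped commutatorElement

noncomputable section

theorem bound_aux {B : ℕ → ℕ} {a b t : UF} {m : ℕ} (hm : 0 < m) (hb0 : b ≠ 0)
    (hbI : (m : UF) * b ∈ II) (ht : t ∈ OO B) (h : |a| * |b| ≤ t) : a ∈ OO B := by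
  have hm0 : (m : UF) ≠ 0 := Nat.cast_ne_zero.mpr (by omega)
  have h1 : 1 ≤ |(m : UF) * b| := one_le_of_II hbI (mul_ne_zero hm0 hb0)
  have hmt : (m : UF) * t ∈ OO B := mul_mem (nat_mem_OO m) ht
  refine OO_of_le hmt ?_
  rw [abs_mul, Nat.abs_cast] at h1
  calc |a| ≤ |a| * ((m : UF) * |b|) := le_mul_of_one_le_right (abs_nonneg _) h1
    _ = (m : UF) * (|a| * |b|) := by ring
    _ ≤ (m : UF) * t := mul_le_mul_of_nonneg_left h (Nat.cast_nonneg _)
    _ ≤ |(m : UF) * t| := le_abs_self _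

/-- Finitely many possible values: one of them is taken almost everywhere. -/
theorem eventually_const {α : Type} (f : ℕ → α) (S : Set α) (hS : S.Finite) (hf : ∀ n, f n ∈ S) :
    ∃ a ∈ S, ∀ᶠ n in (Filter.hyperfilter ℕ : Filter ℕ), f n = a := by
  have h : (⋃ a ∈ S, {n | f n = a}) ∈ Filter.hyperfilter ℕ := by
    have : (⋃ a ∈ S, {n | f n = a}) = Set.univ := by
      ext n
      simp [hf n]
    rw [this]; exact Filter.univ_mem
  obtain ⟨a, ha, h'⟩ := (Ultrafilter.finite_biUnion_mem_iff hS).mp h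
  exact ⟨a, ha, h'⟩

theorem EX_int {r : ℕ} {E : FreeGroup (Fin r) →* (NC (Fin r) ℚ)ˣ} (hE : IsExpMag E)
    (x : ℕ → FreeGroup (Fin r)) (w : List (Fin r)) :
    ((w.length.factorial : ℕ) : UF) * EX E x w ∈ II := by
  choose z hz using fun n => hE.hint (x n) w
  refine ⟨z, ?_⟩
  have : ((w.length.factorial : ℕ) : UF) * EX E x w =
      ger (fun n => ((w.length.factorial : ℕ) : ℚ) *
        ((E (x n) : (NC (Fin r) ℚ)ˣ) : NC (Fin r) ℚ) w) := rfl
  rw [this]
  congr 1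
  funext n
  exact hz n

/-- The initial state. -/
theorem init {r c : ℕ} {E : FreeGroup (Fin r) →* (NC (Fin r) ℚ)ˣ} (hE : IsExpMag E) {B : ℕ → ℕ}
    {g x y : ℕ → FreeGroup (Fin r)} (hg : ∀ w, EX E g w ∈ KK B)
    (hxy : ∀ n, ⁅x n, y n⁆ * (g n)⁻¹ ∈ Gam (fun _ : Fin r => 1) (c + 1))
    (hgn : ∀ n, g n ∉ Gam (fun _ : Fin r => 1) (c + 1)) :
    ∃ (i j : ℕ) (x' y' : ℕ → FreeGroup (Fin r)), State c E B g i j 1 x' y' := by
  classical
  -- congruence of the commutator with `g`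
  have hcg : ∀ n, Ord (c + 1) (((E ⁅x n, y n⁆ : (NC (Fin r) ℚ)ˣ) : NC (Fin r) ℚ) -
      ((E (g n) : (NC (Fin r) ℚ)ˣ) : NC (Fin r) ℚ)) := by
    intro n
    have h1 := (hE.hgam _ _).mp (hxy n)
    have h2 : Ord (c + 1) (((E (⁅x n, y n⁆ * (g n)⁻¹) : (NC (Fin r) ℚ)ˣ) : NC (Fin r) ℚ) - 1) :=
      fun w hw => h1 w (by rw [Pool.Agent.Helper43.Comm.wt_const_one]; exact hw)
    have e : ((E ⁅x n, y n⁆ : (NC (Fin r) ℚ)ˣ) : NC (Fin r) ℚ) -
        ((E (g n) : (NC (Fin r) ℚ)ˣ) : NC (Fin r) ℚ) =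
        (((E (⁅x n, y n⁆ * (g n)⁻¹) : (NC (Fin r) ℚ)ˣ) : NC (Fin r) ℚ) - 1) *
          ((E (g n) : (NC (Fin r) ℚ)ˣ) : NC (Fin r) ℚ) := by
      rw [sub_mul, one_mul, ← Units.val_mul, ← map_mul, inv_mul_cancel_right]
    rw [e]
    exact h2.mul_unit
  have hnz : ∀ n, ∃ w : List (Fin r), w ≠ [] ∧ w.length ≤ c ∧
      ((E ⁅x n, y n⁆ : (NC (Fin r) ℚ)ˣ) : NC (Fin r) ℚ) w ≠ 0 := by
    intro n
    have h1 := hgn n
    rw [hE.hgam] at h1
    unfold OrdGE at h1
    push Not at h1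
    obtain ⟨w, hw, hw0⟩ := h1
    rw [Pool.Agent.Helper43.Comm.wt_const_one] at hw
    have hwn : w ≠ [] := by
      rintro rfl
      exact hw0 (by rw [NC.sub_apply, hE.hnil, NC.one_nil, sub_self])
    refine ⟨w, hwn, by omega, ?_⟩
    have h2 := hcg n w hw
    rw [NC.sub_apply, sub_eq_zero] at h2
    rw [h2]
    obtain ⟨a, v, rfl⟩ := List.exists_cons_of_ne_nil hwn
    rwa [NC.sub_apply, NC.one_cons, sub_zero] at hw0
  obtain ⟨C, hC⟩ := reduce r c E hE.hnil hE.hgl hE.hint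
  choose x' y' I J hI hIJ hIJc hcomm hx' hy' hne hbd using fun n => hC (x n) (y n) (hnz n)
  -- constant leading degrees
  obtain ⟨⟨i, j⟩, -, hev⟩ := eventually_const (fun n => (I n, J n))
    (Set.Iic c ×ˢ Set.Iic c) ((Set.finite_Iic c).prod (Set.finite_Iic c))
    (fun n => ⟨by simp only [Set.mem_Iic]; have := hIJc n; omega,
      by simp only [Set.mem_Iic]; have := hIJc n; omega⟩)
  have hevI : ∀ᶠ n in (Filter.hyperfilter ℕ : Filter ℕ), I n = i ∧ J n = j :=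
    hev.mono fun n hn => ⟨congrArg Prod.fst hn, congrArg Prod.snd hn⟩
  obtain ⟨n₀, hn₀I, hn₀J⟩ := hevI.exists
  have hi : 0 < i := hn₀I ▸ hI n₀
  have hij : i ≤ j := by have := hIJ n₀; rw [hn₀I, hn₀J] at this; exact this
  have hc : i + j ≤ c := by have := hIJc n₀; rw [hn₀I, hn₀J] at this; exact this
  have hox : ∀ᶠ n in (Filter.hyperfilter ℕ : Filter ℕ),
      Ord i (((E (x' n) : (NC (Fin r) ℚ)ˣ) : NC (Fin r) ℚ) - 1) := by
    filter_upwards [hevI] with n hn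
    refine ord_sub_one (fun w hw hl => hx' n w hw ?_) (hE.hnil _)
    rw [hn.1]; exact hl
  have hoy : ∀ᶠ n in (Filter.hyperfilter ℕ : Filter ℕ),
      Ord j (((E (y' n) : (NC (Fin r) ℚ)ˣ) : NC (Fin r) ℚ) - 1) := by
    filter_upwards [hevI] with n hn
    refine ord_sub_one (fun w hw hl => hy' n w hw ?_) (hE.hnil _)
    rw [hn.2]; exact hl
  have hX : Ord i (EX E x' - 1) := by
    have := (gm_ord i _).mpr hox
    rwa [gm_sub, gm_one] at this
  have hY : Ord j (EX E y' - 1) := by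
    have := (gm_ord j _).mpr hoy
    rwa [gm_sub, gm_one] at this
  -- the bracket of the leading terms
  have hbr : ⁅comp i (EX E x'), comp j (EX E y')⁆ ≠ 0 := by
    intro h0
    have e : ⁅comp i (EX E x'), comp j (EX E y')⁆ =
        gm (fun n => ⁅comp i ((E (x' n) : (NC (Fin r) ℚ)ˣ) : NC (Fin r) ℚ),
          comp j ((E (y' n) : (NC (Fin r) ℚ)ˣ) : NC (Fin r) ℚ)⁆) := by
      simp only [Ring.lie_def]
      rw [gm_sub, gm_mul, gm_mul, gm_comp, gm_comp]
      rfl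
    rw [e] at h0
    have h1 : ∀ᶠ n in (Filter.hyperfilter ℕ : Filter ℕ), Ord (i + j + 1)
        (⁅comp i ((E (x' n) : (NC (Fin r) ℚ)ˣ) : NC (Fin r) ℚ),
          comp j ((E (y' n) : (NC (Fin r) ℚ)ˣ) : NC (Fin r) ℚ)⁆) := by
      rw [← gm_ord, h0]
      exact fun w _ => rfl
    obtain ⟨n, hn1, hn2⟩ := (h1.and hevI).exists
    apply hne n
    rw [hn2.1, hn2.2]
    ext w
    by_cases hw : w.length = i + j
    · exact hn1 w (by omega)
    · exact (comp_isHom i _).lie (comp_isHom j _) w hw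
  -- bounds
  have hfin : {v : List (Fin r) | v.length < i + j + 1}.Finite := finite_short _
  set S : Finset (List (Fin r)) := hfin.toFinset with hS
  set T : UF := ger (fun _ => |C|) * ∑ v ∈ S, |EX E g v| with hT
  have habs : ∀ {a : UF}, a ∈ OO B → |a| ∈ OO B := fun {a} ha => OO_of_le ha (by rw [abs_abs])
  have hTO : T ∈ OO B := mul_mem (KK_le_OO (const_mem_KK _))
    (sum_mem fun v _ => habs (KK_le_OO (hg v)))
  have hprod : ∀ w w' : List (Fin r), w.length = i → w'.length = j →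
      |EX E x' w| * |EX E y' w'| ≤ T := by
    intro w w' hw hw'
    have e1 : |EX E x' w| * |EX E y' w'| =
        ger (fun n => |((E (x' n) : (NC (Fin r) ℚ)ˣ) : NC (Fin r) ℚ) w| *
          |((E (y' n) : (NC (Fin r) ℚ)ˣ) : NC (Fin r) ℚ) w'|) := by
      rw [ger_mul, ger_abs, ger_abs]; rfl
    have e2 : T = ger (fun n => |C| * ∑ v ∈ S, |((E (g n) : (NC (Fin r) ℚ)ˣ) : NC (Fin r) ℚ) v|) := by
      rw [ger_mul, ger_sum, hT]
      congr 1
    rw [e1, e2, ger_le]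
    filter_upwards [hevI] with n hn
    obtain ⟨v, hv, hle⟩ := hbd n w w' (by rw [hn.1]; exact hw) (by rw [hn.2]; exact hw')
    rw [hn.1, hn.2] at hv
    have h2 := hcg n v (by omega)
    rw [NC.sub_apply, sub_eq_zero] at h2
    rw [h2] at hle
    refine hle.trans ?_
    refine mul_le_mul (le_abs_self _) ?_ (abs_nonneg _) (abs_nonneg _)
    exact Finset.single_le_sum (f := fun v => |((E (g n) : (NC (Fin r) ℚ)ˣ) : NC (Fin r) ℚ) v|)
      (fun _ _ => abs_nonneg _) (by rw [hS, Set.Finite.mem_toFinset]; simp only [Set.mem_ofPred_eq]; omega)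
  have hexx : ∃ w : List (Fin r), w.length = i ∧ EX E x' w ≠ 0 := by
    by_contra h
    push Not at h
    apply hbr
    have : comp i (EX E x') = 0 := by
      ext w
      rw [comp_apply]
      split_ifs with hw
      · exact h w hw
      · rfl
    rw [this, Ring.lie_def, zero_mul, mul_zero, sub_zero]
  have hexy : ∃ w : List (Fin r), w.length = j ∧ EX E y' w ≠ 0 := by
    by_contra h
    push Not at h
    apply hbr
    have : comp j (EX E y') = 0 := by
      ext w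
      rw [comp_apply]
      split_ifs with hw
      · exact h w hw
      · rfl
    rw [this, Ring.lie_def, zero_mul, mul_zero, sub_zero]
  obtain ⟨wx, hwx, hwx0⟩ := hexx
  obtain ⟨wy, hwy, hwy0⟩ := hexy
  have hlow : ∀ (f : NC (Fin r) UF) (m : ℕ), Ord m (f - 1) → ∀ w : List (Fin r), w.length < m →
      f w ∈ OO B := by
    intro f m hf w hw
    have h1 := hf w hw
    rw [NC.sub_apply, sub_eq_zero] at h1
    rw [h1]
    exact Val.one w
  refine ⟨i, j, x', y', hi, hij, hc, hX, hY, hbr, ?_, hg, ?_, ?_, ?_⟩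
  · -- order of `g`
    have h1 : ∀ᶠ n in (Filter.hyperfilter ℕ : Filter ℕ),
        Ord (i + j) (((E (g n) : (NC (Fin r) ℚ)ˣ) : NC (Fin r) ℚ) - 1) := by
      filter_upwards [hox, hoy] with n hn1 hn2
      have h2 := (og_comm hi (by omega : 0 < j) (E (x' n)) (E (y' n)) (hE.hnil _) (hE.hnil _)
        (og_of_ord hn1) (og_of_ord hn2)).1
      have h3 : (⁅E (x' n), E (y' n)⁆ : (NC (Fin r) ℚ)ˣ) = E ⁅x n, y n⁆ := by
        rw [← hcomm n, map_commutatorElement]
      rw [h3] at h2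
      have h4 := ord_sub_one h2 (hE.hnil _)
      have e : (((E (g n) : (NC (Fin r) ℚ)ˣ) : NC (Fin r) ℚ) - 1) =
          (((E ⁅x n, y n⁆ : (NC (Fin r) ℚ)ˣ) : NC (Fin r) ℚ) - 1) -
          (((E ⁅x n, y n⁆ : (NC (Fin r) ℚ)ˣ) : NC (Fin r) ℚ) -
            ((E (g n) : (NC (Fin r) ℚ)ˣ) : NC (Fin r) ℚ)) := by abel
      rw [e]
      refine h4.sub fun w hw => hcg n w (by omega)
    have := (gm_ord (i + j) _).mpr h1
    rwa [gm_sub, gm_one] at this
  · -- the equation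
    have h1 : ∀ n, Ord (c + 1) (((E (x' n) : (NC (Fin r) ℚ)ˣ) : NC (Fin r) ℚ) *
        ((E (y' n) : (NC (Fin r) ℚ)ˣ) : NC (Fin r) ℚ) -
        ((E (g n) : (NC (Fin r) ℚ)ˣ) : NC (Fin r) ℚ) *
        ((E (y' n) : (NC (Fin r) ℚ)ˣ) : NC (Fin r) ℚ) *
        ((E (x' n) : (NC (Fin r) ℚ)ˣ) : NC (Fin r) ℚ)) := by
      intro n
      have e : (((E (x' n) : (NC (Fin r) ℚ)ˣ) : NC (Fin r) ℚ) *
        ((E (y' n) : (NC (Fin r) ℚ)ˣ) : NC (Fin r) ℚ) -
        ((E (g n) : (NC (Fin r) ℚ)ˣ) : NC (Fin r) ℚ) *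
        ((E (y' n) : (NC (Fin r) ℚ)ˣ) : NC (Fin r) ℚ) *
        ((E (x' n) : (NC (Fin r) ℚ)ˣ) : NC (Fin r) ℚ)) =
        (((E ⁅x n, y n⁆ : (NC (Fin r) ℚ)ˣ) : NC (Fin r) ℚ) -
          ((E (g n) : (NC (Fin r) ℚ)ˣ) : NC (Fin r) ℚ)) *
          ((E (y' n * x' n) : (NC (Fin r) ℚ)ˣ) : NC (Fin r) ℚ) := by
        rw [sub_mul]
        simp only [← Units.val_mul, ← map_mul]
        rw [← hcomm n]
        have e1 : ⁅x' n, y' n⁆ * (y' n * x' n) = x' n * y' n := by
          rw [commutatorElement_def]; group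
        rw [e1, mul_assoc]
      rw [e]
      exact (hcg n).mul_unit
    have h2 := (gm_ord (c + 1) _).mpr (Filter.Eventually.of_forall
      (f := (Filter.hyperfilter ℕ : Filter ℕ)) h1)
    rw [gm_sub, gm_mul, gm_mul, gm_mul] at h2
    exact h2
  · intro w hw
    rcases Nat.lt_or_ge w.length i with h | h
    · exact hlow _ _ hX w h
    · exact bound_aux (Nat.factorial_pos _) hwy0 (EX_int hE y' wy) hTO
        (hprod w wy (by omega) hwy)
  · intro w hw
    rcases Nat.lt_or_ge w.length j with h | h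
    · exact hlow _ _ hY w h
    · exact bound_aux (Nat.factorial_pos _) hwx0 (EX_int hE x' wx) hTO
        (by rw [mul_comm]; exact hprod wx w hwx (by omega))

end

end Pool.Agent.Helper62.Comm
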