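import Pool.Agent.Helper62.Comm.StepFA

set_option autoImplicit false

/-! # `stepF` (MP_76db9d_al, handoff 51) -/

namespace Pool.Agent.Helper62.Comm

open Pool.Agent.Helper7.Comm Pool.Agent.Helper7.Comm.NC Pool.Agent.Helper57.Reduce
open scoped commutatorElement

noncomputable section

section ord

variable {X : Type} {F : Type} [Field F]

theorem ord_add {n : ℕ} {f g : NC X F} (hf : Ord n f) (hg : Ord n g) : Ord n (f + g) :=
  fun w hw => by rw [NC.add_apply, hf w hw, hg w hw, add_zero]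

theorem ord_mono {m n : ℕ} (h : m ≤ n) {f : NC X F} (hf : Ord n f) : Ord m f :=
  fun w hw => hf w (lt_of_lt_of_le hw h)

theorem ord_neg {n : ℕ} {f : NC X F} (hf : Ord n f) : Ord n (-f) :=
  fun w hw => by rw [NC.neg_apply, hf w hw, neg_zero]

theorem ord_smul {n : ℕ} (a : F) {f : NC X F} (hf : Ord n f) : Ord n (a • f) :=
  fun w hw => by rw [NC.smul_apply, hf w hw, smul_zero]

theorem ord_sum {ι : Type} (s : Finset ι) {n : ℕ} {f : ι → NC X F} (hf : ∀ k ∈ s, Ord n (f k)) :
    Ord n (∑ k ∈ s, f k) := fun w hw => by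
  rw [NC.sum_apply]; exact Finset.sum_eq_zero fun k hk => hf k hk w hw

theorem ord_mul_left {n : ℕ} (g : NC X F) {f : NC X F} (hf : Ord n f) : Ord n (g * f) := by
  have h0 : Ord 0 g := fun w hw => absurd hw (Nat.not_lt_zero _)
  simpa using h0.mul hf

theorem comp_of_ord {n : ℕ} {f : NC X F} {m : ℕ} (h : m < n) (hf : Ord n f) : comp m f = 0 := by
  ext w
  rw [comp_apply]
  split_ifs with hw
  · exact hf w (by omega)
  · rfl

end ord

/-- All coefficients are in the subring `S`. -/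
def Val {X : Type} (S : Subring UF) (f : NC X UF) : Prop := ∀ w, f w ∈ S

section val

variable {X : Type} {S : Subring UF}

theorem Val.add {f g : NC X UF} (hf : Val S f) (hg : Val S g) : Val S (f + g) :=
  fun w => add_mem (hf w) (hg w)

theorem Val.sub {f g : NC X UF} (hf : Val S f) (hg : Val S g) : Val S (f - g) :=
  fun w => sub_mem (hf w) (hg w)

theorem Val.one : Val S (1 : NC X UF) := by
  intro w
  cases w with
  | nil => exact one_mem _
  | cons a w => exact zero_mem _

theorem Val.smul {a : UF} (ha : a ∈ S) {f : NC X UF} (hf : Val S f) : Val S (a • f) :=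
  fun w => mul_mem ha (hf w)

theorem Val.sum {ι : Type} (s : Finset ι) {f : ι → NC X UF} (hf : ∀ k ∈ s, Val S (f k)) :
    Val S (∑ k ∈ s, f k) := fun w => by
  rw [NC.sum_apply]; exact sum_mem fun k hk => hf k hk w

theorem Val.mul {f g : NC X UF} (hf : Val S f) (hg : Val S g) : Val S (f * g) := fun w => by
  rw [NC.mul_apply]; exact sum_mem fun k _ => mul_mem (hf _) (hg _)

end val

theorem gc_val_KK {X : Type} {B : ℕ → ℕ} (f : NC X ℚ) : Val (KK B).toSubring (gc f) := fun w =>
  const_mem_KK (f w)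

theorem gc_val_OO {X : Type} {B : ℕ → ℕ} (f : NC X ℚ) : Val (OO B) (gc f) := fun w =>
  KK_le_OO (const_mem_KK (f w))

theorem gc_ord {X : Type} {N : ℕ} {f : NC X ℚ} (hf : Ord N f) : Ord N (gc f) := fun w hw => by
  change ger (fun _ => f w) = 0
  rw [hf w hw]; rfl

theorem gm_lin {r s : ℕ} {E : FreeGroup (Fin r) →* (NC (Fin r) ℚ)ˣ} (M : ℕ)
    (h : ℕ → FreeGroup (Fin r)) (z : Fin s → ℕ → ℤ) (e : Fin s → NC (Fin r) ℚ)
    (hev : ∀ᶠ n in (Filter.hyperfilter ℕ : Filter ℕ),
      Ord (M + 1) ((((E (h n) : (NC (Fin r) ℚ)ˣ) : NC (Fin r) ℚ) - 1) - ∑ k, (z k n : ℚ) • e k)) :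
    Ord (M + 1) ((EX E h - 1) - ∑ k, ger (fun n => (z k n : ℚ)) • gc (e k)) := by
  have h1 := (gm_ord (M + 1) _).mpr hev
  rw [gm_sub, gm_sub, gm_one, gm_sum] at h1
  have h2 : ∀ k, gm (fun n => (z k n : ℚ) • e k) = ger (fun n => (z k n : ℚ)) • gc (e k) :=
    fun k => gm_smul _ _
  simp only [h2] at h1
  exact h1

/-- Parametrization of an element with bounded coefficients in degrees `< N` in degrees
`≤ M < 2 N`. -/
theorem data_germ {r : ℕ} {E : FreeGroup (Fin r) →* (NC (Fin r) ℚ)ˣ} (hE : IsExpMag E)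
    {B : ℕ → ℕ} {x : ℕ → FreeGroup (Fin r)} {N M : ℕ} (hN : 0 < N) (h2 : M < 2 * N)
    (bx : ∀ w : List (Fin r), w.length < N → EX E x w ∈ OO B) :
    ∃ (s : ℕ) (e : Fin s → NC (Fin r) ℚ) (P : NC (Fin r) UF) (z : Fin s → UF),
      Val (KK B).toSubring P ∧ (∀ k, Ord N (e k)) ∧ (∀ k, z k ∈ II) ∧ Ord N (EX E x - P) ∧
      Ord (M + 1) (EX E x - P * (1 + ∑ k, z k • gc (e k))) ∧
      ∀ z' : Fin s → UF, (∀ k, z' k ∈ II) → ∃ x' : ℕ → FreeGroup (Fin r),
        Ord N (EX E x' - P) ∧ Ord (M + 1) (EX E x' - P * (1 + ∑ k, z' k • gc (e k))) := by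
  classical
  obtain ⟨p, hp, hord⟩ := short_germ hE hN bx
  obtain ⟨s, e, he, hz, hzz⟩ := lattice_low hE h2
  have hmul : ∀ h : ℕ → FreeGroup (Fin r), EX E (fun n => p n * h n) = EX E p * EX E h := by
    intro h
    change gm _ = gm _ * gm _
    rw [← gm_mul]
    congr 1
    funext n
    rw [map_mul, Units.val_mul]
  -- integer coordinates
  have hch : ∀ n, ∃ z : Fin s → ℤ,
      (Ord N (((E ((p n)⁻¹ * x n) : (NC (Fin r) ℚ)ˣ) : NC (Fin r) ℚ) - 1) →
      Ord (M + 1) ((((E ((p n)⁻¹ * x n) : (NC (Fin r) ℚ)ˣ) : NC (Fin r) ℚ) - 1) -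
        ∑ k, (z k : ℚ) • e k)) := by
    intro n
    by_cases hn : Ord N (((E ((p n)⁻¹ * x n) : (NC (Fin r) ℚ)ˣ) : NC (Fin r) ℚ) - 1)
    · obtain ⟨z, hz'⟩ := hz _ hn
      exact ⟨z, fun _ => hz'⟩
    · exact ⟨0, fun h => absurd h hn⟩
  choose ζ hζ using hch
  have hX : EX E x = EX E p * EX E (fun n => (p n)⁻¹ * x n) := by
    rw [← hmul]; congr 1; funext n; group
  have hΞ : Ord N (EX E (fun n => (p n)⁻¹ * x n) - 1) := by
    have := (gm_ord N _).mpr hord
    rw [gm_sub, gm_one] at this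
    exact this
  refine ⟨s, e, EX E p, fun k => ger (fun n => (ζ n k : ℚ)), fun w => EX_KK hE p w (hp w), he,
    fun k => ⟨fun n => ζ n k, rfl⟩, ?_, ?_, ?_⟩
  · have : EX E x - EX E p = EX E p * (EX E (fun n => (p n)⁻¹ * x n) - 1) := by
      rw [hX]; noncomm_ring
    rw [this]
    exact ord_mul_left _ hΞ
  · have h1 := gm_lin (E := E) M (fun n => (p n)⁻¹ * x n) (fun k n => ζ n k) e
      (hord.mono fun n hn => hζ n hn)
    have : EX E x - EX E p * (1 + ∑ k, ger (fun n => (ζ n k : ℚ)) • gc (e k)) =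
        EX E p * ((EX E (fun n => (p n)⁻¹ * x n) - 1) -
          ∑ k, ger (fun n => (ζ n k : ℚ)) • gc (e k)) := by
      rw [hX]; noncomm_ring
    rw [this]
    exact ord_mul_left _ h1
  · intro z' hz'
    choose ξ hξ using hz'
    choose h hh1 hh2 using fun n => hzz (fun k => ξ k n)
    refine ⟨fun n => p n * h n, ?_, ?_⟩
    · have h1 := (gm_ord N _).mpr (Filter.Eventually.of_forall (f := (Filter.hyperfilter ℕ : Filter ℕ)) hh1)
      rw [gm_sub, gm_one] at h1
      have : EX E (fun n => p n * h n) - EX E p = EX E p * (EX E h - 1) := by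
        rw [hmul]; noncomm_ring
      rw [this]
      exact ord_mul_left _ h1
    · have h1 := gm_lin (E := E) M h ξ e (Filter.Eventually.of_forall hh2)
      have e2 : ∑ k, z' k • gc (e k) = ∑ k, ger (fun n => (ξ k n : ℚ)) • gc (e k) :=
        Finset.sum_congr rfl fun k _ => by rw [hξ k]
      have : EX E (fun n => p n * h n) - EX E p * (1 + ∑ k, z' k • gc (e k)) =
          EX E p * ((EX E h - 1) - ∑ k, ger (fun n => (ξ k n : ℚ)) • gc (e k)) := by
        rw [hmul, e2]; noncomm_ring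
      rw [this]
      exact ord_mul_left _ h1

/-- Linearization of the equation. -/
theorem linearize {X F : Type} [Field F] {s t : ℕ} (P R G : NC X F) (a : Fin s → NC X F)
    (b : Fin t → NC X F) (z : Fin s → F) (u : Fin t → F) :
    (P * (1 + ∑ k, z k • a k)) * (R * (1 + ∑ k, u k • b k)) -
        G * (R * (1 + ∑ k, u k • b k)) * (P * (1 + ∑ k, z k • a k)) =
      ((P * R - G * R * P) + (∑ k, z k • (P * a k * R - G * R * P * a k) +
        ∑ k, u k • (P * R * b k - G * R * b k * P))) +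
      (P * ((∑ k, z k • a k) * (R * ∑ k, u k • b k)) -
        G * R * ((∑ k, u k • b k) * (P * ∑ k, z k • a k))) := by
  have e1 : ∑ k, z k • (P * a k * R - G * R * P * a k) =
      P * (∑ k, z k • a k) * R - G * R * P * ∑ k, z k • a k := by
    simp only [Finset.mul_sum, Finset.sum_mul, mul_smul_comm, smul_mul_assoc, smul_sub,
      Finset.sum_sub_distrib]
  have e2 : ∑ k, u k • (P * R * b k - G * R * b k * P) =
      P * R * (∑ k, u k • b k) - G * R * (∑ k, u k • b k) * P := by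
    simp only [Finset.mul_sum, Finset.sum_mul, mul_smul_comm, smul_mul_assoc, smul_sub,
      Finset.sum_sub_distrib]
  rw [e1, e2]
  noncomm_ring

/-- The last step: beyond the middle level everything is linear. -/
theorem stepF {r c : ℕ} {E : FreeGroup (Fin r) →* (NC (Fin r) ℚ)ˣ} (hE : IsExpMag E) {B : ℕ → ℕ}
    {g : ℕ → FreeGroup (Fin r)} {i j l : ℕ} {x y : ℕ → FreeGroup (Fin r)}
    (H : State c E B g i j l x y) (hl : 0 < l) (hlc : c < i + j + 2 * l) :
    ∃ x' y', State c E B g i j (c - i - j + 1) x' y' := by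
  classical
  have hi := H.hi
  have hij := H.hij
  have hc := H.hc
  obtain ⟨s, a, P, z, hPK, ha, hzI, hXP, hXP2, hx'⟩ := data_germ hE (N := i + l) (M := c - j)
    (by omega) (by omega) H.bx
  obtain ⟨t, b, R, u, hRK, hb, huI, hYR, hYR2, hy'⟩ := data_germ hE (N := j + l) (M := c - i)
    (by omega) (by omega) H.by'
  -- the linearized system
  set G := EX E g with hG
  set A : Fin s ⊕ Fin t → NC (Fin r) UF := Sum.elim
    (fun k => P * gc (a k) * R - G * R * P * gc (a k))
    (fun k => P * R * gc (b k) - G * R * gc (b k) * P) with hA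
  set A0 : NC (Fin r) UF := P * R - G * R * P with hA0
  have hGK : Val (KK B).toSubring G := H.hg
  have hAK : ∀ k, Val (KK B).toSubring (A k) := by
    rintro (k | k)
    · exact ((hPK.mul (gc_val_KK _)).mul hRK).sub (((hGK.mul hRK).mul hPK).mul (gc_val_KK _))
    · exact ((hPK.mul hRK).mul (gc_val_KK _)).sub (((hGK.mul hRK).mul (gc_val_KK _)).mul hPK)
  have hA0K : Val (KK B).toSubring A0 := (hPK.mul hRK).sub ((hGK.mul hRK).mul hPK)
  -- the nonlinear part is of high order
  have hlin : ∀ (z₁ : Fin s → UF) (u₁ : Fin t → UF),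
      Ord (c + 1) ((P * (1 + ∑ k, z₁ k • gc (a k))) * (R * (1 + ∑ k, u₁ k • gc (b k))) -
        G * (R * (1 + ∑ k, u₁ k • gc (b k))) * (P * (1 + ∑ k, z₁ k • gc (a k))) -
        (A0 + ∑ k, (Sum.elim z₁ u₁) k • A k)) := by
    intro z₁ u₁
    have hS : Ord (i + l) (∑ k, z₁ k • gc (a k)) :=
      ord_sum _ fun k _ => ord_smul _ (gc_ord (ha k))
    have hT : Ord (j + l) (∑ k, u₁ k • gc (b k)) :=
      ord_sum _ fun k _ => ord_smul _ (gc_ord (hb k))
    rw [linearize, Fintype.sum_sum_type]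
    simp only [hA, Sum.elim_inl, Sum.elim_inr]
    rw [add_sub_cancel_left]
    refine Ord.sub (ord_mul_left _ ?_) (ord_mul_left _ ?_)
    · exact ord_mono (by omega) (hS.mul (ord_mul_left R hT))
    · exact ord_mono (by omega) (hT.mul (ord_mul_left P hS))
  -- orders
  have hPS : ∀ z₁ : Fin s → UF, Ord i (P * (1 + ∑ k, z₁ k • gc (a k)) - 1) := by
    intro z₁
    have hS : Ord (i + l) (∑ k, z₁ k • gc (a k)) :=
      ord_sum _ fun k _ => ord_smul _ (gc_ord (ha k))
    have e : P * (1 + ∑ k, z₁ k • gc (a k)) - 1 =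
        -(EX E x - P) + (EX E x - 1) + P * ∑ k, z₁ k • gc (a k) := by noncomm_ring
    rw [e]
    exact ord_add (ord_add (ord_neg (ord_mono (by omega) hXP)) H.hx)
      (ord_mono (by omega) (ord_mul_left P hS))
  have hRT : ∀ u₁ : Fin t → UF, Ord j (R * (1 + ∑ k, u₁ k • gc (b k)) - 1) := by
    intro u₁
    have hT : Ord (j + l) (∑ k, u₁ k • gc (b k)) :=
      ord_sum _ fun k _ => ord_smul _ (gc_ord (hb k))
    have e : R * (1 + ∑ k, u₁ k • gc (b k)) - 1 =
        -(EX E y - R) + (EX E y - 1) + R * ∑ k, u₁ k • gc (b k) := by noncomm_ring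
    rw [e]
    exact ord_add (ord_add (ord_neg (ord_mono (by omega) hYR)) H.hy)
      (ord_mono (by omega) (ord_mul_left R hT))
  -- the affine system holds
  have hsys : ∀ w : List (Fin r), w.length < c + 1 →
      A0 w + ∑ k, (Sum.elim z u) k * A k w = 0 := by
    intro w hw
    have h1 := repl i j c hi (by omega) hc (EX E x) (EX E y) G
      (P * (1 + ∑ k, z k • gc (a k))) (R * (1 + ∑ k, u k • gc (b k))) H.hx H.hy H.hgo
      (by have := ord_neg hXP2; rwa [neg_sub] at this)
      (by have := ord_neg hYR2; rwa [neg_sub] at this) w hw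
    have h2 := hlin z u w hw
    have h3 := H.heq w hw
    rw [NC.sub_apply, h3, sub_zero] at h1
    rw [NC.sub_apply, h1, zero_sub, neg_eq_zero, NC.add_apply, NC.sum_apply] at h2
    exact h2
  obtain ⟨ζ, hζI, hζO, hζ⟩ := approx_solution (B := B) (Sum.elim z u) (by
    rintro (k | k)
    · exact hzI k
    · exact huI k)
  obtain ⟨x', hx1, hx2⟩ := hx' (fun k => ζ (Sum.inl k)) (fun k => hζI _)
  obtain ⟨y', hy1, hy2⟩ := hy' (fun k => ζ (Sum.inr k)) (fun k => hζI _)
  have hζe : Sum.elim (fun k => ζ (Sum.inl k)) (fun k => ζ (Sum.inr k)) = ζ := by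
    funext k; cases k <;> rfl
  have hXX : Ord (i + l) (EX E x' - EX E x) := by
    have : EX E x' - EX E x = (EX E x' - P) - (EX E x - P) := by abel
    rw [this]; exact hx1.sub hXP
  have hYY : Ord (j + l) (EX E y' - EX E y) := by
    have : EX E y' - EX E y = (EX E y' - R) - (EX E y - R) := by abel
    rw [this]; exact hy1.sub hYR
  refine ⟨x', y', hi, hij, hc, ?_, ?_, ?_, H.hgo, H.hg, ?_, ?_, ?_⟩
  · have : EX E x' - 1 = (EX E x' - EX E x) + (EX E x - 1) := by abel
    rw [this]; exact ord_add (ord_mono (by omega) hXX) H.hx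
  · have : EX E y' - 1 = (EX E y' - EX E y) + (EX E y - 1) := by abel
    rw [this]; exact ord_add (ord_mono (by omega) hYY) H.hy
  · have e1 : comp i (EX E x') = comp i (EX E x) := by
      have := comp_of_ord (m := i) (by omega) hXX
      rwa [comp_sub, sub_eq_zero] at this
    have e2 : comp j (EX E y') = comp j (EX E y) := by
      have := comp_of_ord (m := j) (by omega) hYY
      rwa [comp_sub, sub_eq_zero] at this
    rw [e1, e2]
    exact H.hne
  · intro w hw
    have h1 := repl i j c hi (by omega) hc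
      (P * (1 + ∑ k, ζ (Sum.inl k) • gc (a k))) (R * (1 + ∑ k, ζ (Sum.inr k) • gc (b k))) G
      (EX E x') (EX E y') (hPS _) (hRT _) H.hgo hx2 hy2 w hw
    have h2 := hlin (fun k => ζ (Sum.inl k)) (fun k => ζ (Sum.inr k)) w hw
    have h3 := hζ (fun k => A k w) (A0 w) (fun k => hAK k w) (hA0K w) (hsys w hw)
    rw [hζe, NC.sub_apply, NC.add_apply A0, NC.sum_apply] at h2
    simp only [NC.smul_apply, smul_eq_mul] at h2
    rw [h3, sub_zero] at h2
    rw [NC.sub_apply, h2, sub_zero] at h1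
    exact h1
  · intro w hw
    have h1 := hx2 w (by omega)
    rw [NC.sub_apply, sub_eq_zero] at h1
    rw [h1]
    have hPO : Val (OO B) P := fun w => KK_le_OO (hPK w)
    exact (hPO.mul (Val.one.add (Val.sum _ fun k _ => Val.smul (hζO _) (gc_val_OO _)))) w
  · intro w hw
    have h1 := hy2 w (by omega)
    rw [NC.sub_apply, sub_eq_zero] at h1
    rw [h1]
    have hRO : Val (OO B) R := fun w => KK_le_OO (hRK w)
    exact (hRO.mul (Val.one.add (Val.sum _ fun k _ => Val.smul (hζO _) (gc_val_OO _)))) w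

end

end Pool.Agent.Helper62.Comm
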