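import Pool.Agent.Helper7.Comm.GermBasics
import Pool.Agent.Helper7.Comm.LinK
import Pool.Agent.Helper7.Comm.Level
import Pool.Agent.Helper43.Comm.ShortWord

set_option autoImplicit false

/-! # Auxiliary results for `stepF` (MP_76db9d_al, handoff 51) -/

namespace Pool.Agent.Helper62.Comm

open Pool.Agent.Helper7.Comm Pool.Agent.Helper7.Comm.NC Pool.Agent.Helper57.Reduce
open scoped commutatorElement

noncomputable section

/-- Solutions of affine equations over the small field in integer germs can be replaced by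
bounded ones. -/
theorem approx_solution {B : ℕ → ℕ} {ι : Type} [Fintype ι] (z : ι → UF) (hz : ∀ k, z k ∈ II) :
    ∃ z' : ι → UF, (∀ k, z' k ∈ II) ∧ (∀ k, z' k ∈ OO B) ∧
      ∀ (a : ι → UF) (a0 : UF), (∀ k, a k ∈ KK B) → a0 ∈ KK B →
        a0 + ∑ k, z k * a k = 0 → a0 + ∑ k, z' k * a k = 0 := by
  obtain ⟨s, ω, ρ, ρ₀, h0, h1, hexp⟩ := lin_expand (K := KK B) z
  have hmem : ∀ p : Fin s × ι, algebraMap (KK B) UF (ρ p.1 (z p.2)) ∈ KK B := fun p => (ρ p.1 (z p.2)).2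
  obtain ⟨D, hDI, hDO, hD0, hD⟩ := exists_denom (fun p : Fin s × ι => algebraMap (KK B) UF (ρ p.1 (z p.2))) hmem
  choose n hnI hn using fun k : Fin s => exists_floorII (ω k / D)
  have hfl : ∀ k, ω k - n k * D ∈ OO B := by
    intro k
    refine OO_of_le hDO ?_
    have : ω k - n k * D = (ω k / D - n k) * D := by field_simp
    rw [this, abs_mul]
    exact mul_le_of_le_one_left (abs_nonneg _) (hn k)
  refine ⟨fun k => z k - ∑ t, n t * (D * algebraMap (KK B) UF (ρ t (z k))), fun k => ?_, fun k => ?_, ?_⟩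
  · exact sub_mem (hz k) (sum_mem fun t _ => mul_mem (hnI t) (hD (t, k)).1)
  · have : z k - ∑ t, n t * (D * algebraMap (KK B) UF (ρ t (z k))) =
        algebraMap (KK B) UF (ρ₀ (z k)) + ∑ t, (ω t - n t * D) * algebraMap (KK B) UF (ρ t (z k)) := by
      have e1 : ∑ t, (ω t - n t * D) * algebraMap (KK B) UF (ρ t (z k)) =
          ∑ t, ω t * algebraMap (KK B) UF (ρ t (z k)) -
            ∑ t, n t * (D * algebraMap (KK B) UF (ρ t (z k))) := by
        rw [← Finset.sum_sub_distrib]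
        exact Finset.sum_congr rfl fun t _ => by ring
      rw [e1]
      linear_combination hexp k
    show z k - ∑ t, n t * (D * algebraMap (KK B) UF (ρ t (z k))) ∈ OO B
    rw [this]
    exact add_mem (KK_le_OO (ρ₀ (z k)).2)
      (sum_mem fun t _ => mul_mem (hfl t) (KK_le_OO (ρ t (z k)).2))
  · intro a a0 ha ha0 heq
    have key : ∀ t, ∑ k, algebraMap (KK B) UF (ρ t (z k)) * a k = 0 := by
      intro t
      have e1 : (⟨a0, ha0⟩ : KK B) • (1 : UF) + ∑ k, (⟨a k, ha k⟩ : KK B) • z k = 0 := by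
        rw [← heq]
        congr 1
        · rw [Algebra.smul_def, mul_one]; rfl
        · exact Finset.sum_congr rfl fun k _ => by rw [Algebra.smul_def, mul_comm]; rfl
      have e2 := congrArg (ρ t) e1
      rw [map_add, map_smul, h1, smul_zero, zero_add, map_sum, map_zero] at e2
      have e3 := congrArg (algebraMap (KK B) UF) e2
      rw [map_sum, map_zero] at e3
      rw [← e3]
      refine Finset.sum_congr rfl fun k _ => ?_
      rw [map_smul, smul_eq_mul, map_mul, mul_comm]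
      rfl
    have : ∑ k, (z k - ∑ t, n t * (D * algebraMap (KK B) UF (ρ t (z k)))) * a k =
        ∑ k, z k * a k - ∑ t, n t * D * ∑ k, algebraMap (KK B) UF (ρ t (z k)) * a k := by
      simp only [sub_mul, Finset.sum_sub_distrib, Finset.sum_mul, Finset.mul_sum]
      congr 1
      rw [Finset.sum_comm]
      exact Finset.sum_congr rfl fun t _ => Finset.sum_congr rfl fun k _ => by ring
    simp only [key, mul_zero, Finset.sum_const_zero, sub_zero] at this
    rw [this, heq]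

/-- Short representatives of germs with bounded coefficients. -/
theorem short_germ {r : ℕ} {E : FreeGroup (Fin r) →* (NC (Fin r) ℚ)ˣ} (hE : IsExpMag E)
    {B : ℕ → ℕ} {x : ℕ → FreeGroup (Fin r)} {N : ℕ} (hN : 0 < N)
    (bx : ∀ w : List (Fin r), w.length < N → EX E x w ∈ OO B) :
    ∃ p : ℕ → FreeGroup (Fin r), (∀ w, EX E p w ∈ OO B) ∧
      ∀ᶠ n in (Filter.hyperfilter ℕ : Filter ℕ),
        Ord N (((E ((p n)⁻¹ * x n) : (NC (Fin r) ℚ)ˣ) : NC (Fin r) ℚ) - 1) := by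
  classical
  obtain ⟨C, hC⟩ := Pool.Agent.Helper43.Comm.short_word r (N - 1) E hE.hnil hE.hint hE.hgrow
  -- a common exponent
  have hfin : {w : List (Fin r) | w.length < N}.Finite := List.finite_length_lt _ _
  choose! k hk using bx
  obtain ⟨K, hK⟩ := (hfin.image k).bddAbove
  have hK' : ∀ w : List (Fin r), w.length < N → |EX E x w| ≤ bse B ^ K := fun w hw =>
    (hk w hw).trans (bse_pow_mono B (hK ⟨w, hw, rfl⟩))
  have hev : ∀ᶠ n in (Filter.hyperfilter ℕ : Filter ℕ), ∀ w : List (Fin r), w.length < N →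
      |((E (x n) : (NC (Fin r) ℚ)ˣ) : NC (Fin r) ℚ) w| ≤ ((B n + 2) ^ K : ℕ) := by
    have : ∀ w ∈ {w : List (Fin r) | w.length < N}, ∀ᶠ n in (Filter.hyperfilter ℕ : Filter ℕ),
        |((E (x n) : (NC (Fin r) ℚ)ˣ) : NC (Fin r) ℚ) w| ≤ ((B n + 2) ^ K : ℕ) := by
      intro w hw
      have h := hK' w hw
      change |ger (fun n => ((E (x n) : (NC (Fin r) ℚ)ˣ) : NC (Fin r) ℚ) w)| ≤ (ger _) ^ K at h
      rw [← ger_abs, ← ger_pow, ger_le] at h
      filter_upwards [h] with n hn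
      push_cast
      exact hn
    exact (Filter.eventually_all_finite hfin).mpr this
  set good : ℕ → Prop := fun n => ∀ w : List (Fin r), w.length < N →
      |((E (x n) : (NC (Fin r) ℚ)ˣ) : NC (Fin r) ℚ) w| ≤ ((B n + 2) ^ K : ℕ) with hgood
  have hW : ∀ n, ∃ W : List (Fin r × Bool), W.length ≤ C * ((B n + 2) ^ K + 1) ^ C ∧
      (good n → Ord N (((E ((FreeGroup.mk W)⁻¹ * x n) : (NC (Fin r) ℚ)ˣ) : NC (Fin r) ℚ) - 1)) := by
    intro n
    by_cases hn : good n
    · obtain ⟨W, hW1, hW2⟩ := hC (x n) ((B n + 2) ^ K) (fun w hw => hn w (by omega))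
      refine ⟨W, hW1, fun _ w hw => hW2 w ?_⟩
      rw [Pool.Agent.Helper43.Comm.wt_const_one]
      omega
    · exact ⟨[], by simp, fun h => absurd h hn⟩
  choose W hW1 hW2 using hW
  refine ⟨fun n => FreeGroup.mk (W n), fun w => ?_, hev.mono fun n hn => hW2 n hn⟩
  obtain ⟨C₁, hC₁⟩ := hE.hgrow w.length
  have hb : ger (fun n => (C₁ : ℚ) * ((C * (((B n : ℚ) + 2) ^ K + 1) ^ C) + 1) ^ C₁) ∈ OO B := by
    have hconst : ∀ m : ℕ, ((m : UF)) ∈ OO B := fun m => natCast_mem _ m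
    have hbs : bse B ∈ OO B := ⟨1, by rw [pow_one, abs_of_nonneg (le_trans (by norm_num) (two_le_bse B))]⟩
    have : ger (fun n => (C₁ : ℚ) * ((C * (((B n : ℚ) + 2) ^ K + 1) ^ C) + 1) ^ C₁) =
        (C₁ : UF) * (((C : UF) * ((bse B) ^ K + 1) ^ C) + 1) ^ C₁ := rfl
    rw [this]
    exact mul_mem (hconst _) (pow_mem (add_mem (mul_mem (hconst _)
      (pow_mem (add_mem (pow_mem hbs _) (one_mem _)) _)) (one_mem _)) _)
  refine OO_of_le hb ?_
  change |ger (fun n => ((E (FreeGroup.mk (W n)) : (NC (Fin r) ℚ)ˣ) : NC (Fin r) ℚ) w)| ≤ _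
  rw [← ger_abs, ← ger_abs, ger_le]
  refine Filter.Eventually.of_forall fun n => ?_
  refine ((hC₁ (W n) w le_rfl).trans ?_).trans (le_abs_self _)
  have : ((W n).length : ℚ) ≤ C * (((B n : ℚ) + 2) ^ K + 1) ^ C := by exact_mod_cast hW1 n
  gcongr

section lat

variable {r : ℕ} (E : FreeGroup (Fin r) →* (NC (Fin r) ℚ)ˣ)

open Pool.Agent.Helper49.MagnusW in
/-- The coefficients of degree `≤ M` of elements of order `N > M / 2`, as a homomorphism. -/
def low (N M : ℕ) (h2 : M < 2 * N) : ↥(ordSub (fun _ => 1) E N) →*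
    Multiplicative ({w : List (Fin r) // w.length ≤ M} → ℚ) where
  toFun h := Multiplicative.ofAdd fun u => (((E h.1 : (NC (Fin r) ℚ)ˣ) : NC (Fin r) ℚ) - 1) u.1
  map_one' := by
    rw [← ofAdd_zero]
    congr 1
    funext u
    simp
  map_mul' a b := by
    rw [← ofAdd_add]
    congr 1
    funext u
    have ha : Ord N (((E a.1 : (NC (Fin r) ℚ)ˣ) : NC (Fin r) ℚ) - 1) := fun w hw =>
      a.2 w (by rw [Pool.Agent.Helper43.Comm.wt_const_one]; exact hw)
    have hb : Ord N (((E b.1 : (NC (Fin r) ℚ)ˣ) : NC (Fin r) ℚ) - 1) := fun w hw =>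
      b.2 w (by rw [Pool.Agent.Helper43.Comm.wt_const_one]; exact hw)
    have hab := ha.mul hb u.1 (by have := u.2; omega)
    have e : (((E (a.1 * b.1) : (NC (Fin r) ℚ)ˣ) : NC (Fin r) ℚ)) - 1 =
        (((E a.1 : (NC (Fin r) ℚ)ˣ) : NC (Fin r) ℚ) - 1) *
          (((E b.1 : (NC (Fin r) ℚ)ˣ) : NC (Fin r) ℚ) - 1) +
          ((((E a.1 : (NC (Fin r) ℚ)ˣ) : NC (Fin r) ℚ) - 1) +
          (((E b.1 : (NC (Fin r) ℚ)ˣ) : NC (Fin r) ℚ) - 1)) := by
      rw [map_mul, Units.val_mul]; noncomm_ring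
    change ((((E (a.1 * b.1) : (NC (Fin r) ℚ)ˣ) : NC (Fin r) ℚ)) - 1) u.1 =
      ((((E a.1 : (NC (Fin r) ℚ)ˣ) : NC (Fin r) ℚ)) - 1) u.1 +
        ((((E b.1 : (NC (Fin r) ℚ)ˣ) : NC (Fin r) ℚ)) - 1) u.1
    rw [e, NC.add_apply, hab, zero_add, NC.add_apply]

end lat

/-- The lattice of low-degree coefficients of elements of order `≥ N`. -/
theorem lattice_low {r : ℕ} {E : FreeGroup (Fin r) →* (NC (Fin r) ℚ)ˣ} (hE : IsExpMag E)
    {N M : ℕ} (h2 : M < 2 * N) :
    ∃ (s : ℕ) (e : Fin s → NC (Fin r) ℚ), (∀ k, Ord N (e k)) ∧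
      (∀ h, Ord N (((E h : (NC (Fin r) ℚ)ˣ) : NC (Fin r) ℚ) - 1) → ∃ z : Fin s → ℤ,
        Ord (M + 1) ((((E h : (NC (Fin r) ℚ)ˣ) : NC (Fin r) ℚ) - 1) - ∑ k, (z k : ℚ) • e k)) ∧
      (∀ z : Fin s → ℤ, ∃ h, Ord N (((E h : (NC (Fin r) ℚ)ˣ) : NC (Fin r) ℚ) - 1) ∧
        Ord (M + 1) ((((E h : (NC (Fin r) ℚ)ˣ) : NC (Fin r) ℚ) - 1) - ∑ k, (z k : ℚ) • e k)) := by
  classical
  have : Fintype {w : List (Fin r) // w.length ≤ M} :=
    (List.finite_length_le (Fin r) M).fintype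
  have hcard : ∀ w : List (Fin r), w.length ≤ M → ∀ h, ∃ z : ℤ,
      ((M.factorial : ℕ) : ℚ) * (((E h : (NC (Fin r) ℚ)ˣ) : NC (Fin r) ℚ) - 1) w = z := by
    intro w hw h
    obtain ⟨z, hz⟩ := hE.hint h w
    obtain ⟨d, hd⟩ := Nat.factorial_dvd_factorial hw
    cases w with
    | nil => exact ⟨0, by simp [hE.hnil]⟩
    | cons a w =>
      refine ⟨d * z, ?_⟩
      rw [NC.sub_apply, NC.one_cons, sub_zero, hd]
      push_cast
      rw [← hz]; ring
  obtain ⟨s, ε, L, hL⟩ := Pool.Agent.Helper43.Comm.lattice (low E N M h2) M.factorial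
    (Nat.factorial_pos _) (fun h k => hcard k.1 k.2 h.1)
  refine ⟨s, fun k => (((E (ε k).1 : (NC (Fin r) ℚ)ˣ) : NC (Fin r) ℚ) - 1), fun k w hw => ?_,
    fun h hh => ?_, fun z => ?_⟩
  · exact (ε k).2 w (by rw [Pool.Agent.Helper43.Comm.wt_const_one]; exact hw)
  · set h' : ↥(Pool.Agent.Helper49.MagnusW.ordSub (fun _ => 1) E N) := ⟨h, fun w hw => hh w (by
      rw [Pool.Agent.Helper43.Comm.wt_const_one] at hw; exact hw)⟩ with hh'
    choose z hz using (hL h').1
    refine ⟨z, fun w hw => ?_⟩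
    have h1 := congrFun (hL h').2 ⟨w, by omega⟩
    rw [NC.sub_apply, NC.sum_apply, sub_eq_zero]
    rw [show (((E h : (NC (Fin r) ℚ)ˣ) : NC (Fin r) ℚ) - 1) w =
      Multiplicative.toAdd (low E N M h2 h') ⟨w, by omega⟩ from rfl, h1, Finset.sum_apply]
    refine Finset.sum_congr rfl fun k _ => ?_
    rw [Pi.smul_apply, hz k]
    rfl
  · set P : ↥(Pool.Agent.Helper49.MagnusW.ordSub (fun _ => 1) E N) :=
      (List.ofFn fun k => ε k ^ z k).prod with hP
    refine ⟨P.1, fun w hw => P.2 w (by rw [Pool.Agent.Helper43.Comm.wt_const_one]; exact hw),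
      fun w hw => ?_⟩
    have hlow : Multiplicative.toAdd (low E N M h2 P) =
        ∑ k, (z k : ℚ) • Multiplicative.toAdd (low E N M h2 (ε k)) := by
      rw [hP, map_list_prod, List.map_ofFn, List.prod_ofFn, toAdd_prod]
      refine Finset.sum_congr rfl fun k _ => ?_
      rw [Function.comp_apply, map_zpow, toAdd_zpow]
      ext u
      simp
    have h1 := congrFun hlow ⟨w, by omega⟩
    rw [NC.sub_apply, NC.sum_apply, sub_eq_zero,
      show (((E P.1 : (NC (Fin r) ℚ)ˣ) : NC (Fin r) ℚ) - 1) w =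
      Multiplicative.toAdd (low E N M h2 P) ⟨w, by omega⟩ from rfl, h1, Finset.sum_apply]
    exact Finset.sum_congr rfl fun k _ => rfl

end

end Pool.Agent.Helper62.Comm
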