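import Pool.Agent.Helper62.Comm.StepF

set_option autoImplicit false

/-! # Words from a complete state (MP_76db9d_al, handoff 52) -/

namespace Pool.Agent.Helper62.Comm

open Pool.Agent.Helper7.Comm Pool.Agent.Helper7.Comm.NC Pool.Agent.Helper57.Reduce
open scoped commutatorElement

noncomputable section

/-- Short words representing elements with bounded coefficients. -/
theorem short_words {r : ℕ} {E : FreeGroup (Fin r) →* (NC (Fin r) ℚ)ˣ} (hE : IsExpMag E)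
    {B : ℕ → ℕ} {x : ℕ → FreeGroup (Fin r)} {N : ℕ} (hN : 0 < N)
    (bx : ∀ w : List (Fin r), w.length < N → EX E x w ∈ OO B) :
    ∃ (W : ℕ → List (Fin r × Bool)) (k : ℕ), (∀ n, (W n).length ≤ (B n + 2) ^ k) ∧
      ∀ᶠ n in (Filter.hyperfilter ℕ : Filter ℕ),
        Ord N (((E ((FreeGroup.mk (W n))⁻¹ * x n) : (NC (Fin r) ℚ)ˣ) : NC (Fin r) ℚ) - 1) := by
  classical
  obtain ⟨C, hC⟩ := Pool.Agent.Helper43.Comm.short_word r (N - 1) E hE.hnil hE.hint hE.hgrow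
  -- a common exponent
  have hfin : {w : List (Fin r) | w.length < N}.Finite := List.finite_length_lt _ _
  choose! k hk using bx
  obtain ⟨K, hK⟩ := (hfin.image k).bddAbove
  have hK' : ∀ w : List (Fin r), w.length < N → |EX E x w| ≤ bse B ^ K := fun w hw =>
    (hk w hw).trans (bse_pow_mono B (hK ⟨w, hw, rfl⟩))
  have hev : ∀ᶠ n in (Filter.hyperfilter ℕ : Filter ℕ), ∀ w : List (Fin r), w.length < N →
      |((E (x n) : (NC (Fin r) ℚ)ˣ) : NC (Fin r) ℚ) w| ≤ ((B n + 2) ^ K : ℕ) := by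
    have : ∀ w ∈ {w : List (Fin r) | w.length < N}, ∀ᶠ n in (Filter.hyperfilter ℕ : Filter ℕ),
        |((E (x n) : (NC (Fin r) ℚ)ˣ) : NC (Fin r) ℚ) w| ≤ ((B n + 2) ^ K : ℕ) := by
      intro w hw
      have h := hK' w hw
      change |ger (fun n => ((E (x n) : (NC (Fin r) ℚ)ˣ) : NC (Fin r) ℚ) w)| ≤ (ger _) ^ K at h
      rw [← ger_abs, ← ger_pow, ger_le] at h
      filter_upwards [h] with n hn
      push_cast
      exact hn
    exact (Filter.eventually_all_finite hfin).mpr this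
  set good : ℕ → Prop := fun n => ∀ w : List (Fin r), w.length < N →
      |((E (x n) : (NC (Fin r) ℚ)ˣ) : NC (Fin r) ℚ) w| ≤ ((B n + 2) ^ K : ℕ) with hgood
  have hW : ∀ n, ∃ W : List (Fin r × Bool), W.length ≤ C * ((B n + 2) ^ K + 1) ^ C ∧
      (good n → Ord N (((E ((FreeGroup.mk W)⁻¹ * x n) : (NC (Fin r) ℚ)ˣ) : NC (Fin r) ℚ) - 1)) := by
    intro n
    by_cases hn : good n
    · obtain ⟨W, hW1, hW2⟩ := hC (x n) ((B n + 2) ^ K) (fun w hw => hn w (by omega))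
      refine ⟨W, hW1, fun _ w hw => hW2 w ?_⟩
      rw [Pool.Agent.Helper43.Comm.wt_const_one]
      omega
    · exact ⟨[], by simp, fun h => absurd h hn⟩
  choose W hW1 hW2 using hW
  refine ⟨W, C + (K + 1) * C, fun n => (hW1 n).trans ?_, hev.mono fun n hn => hW2 n hn⟩
  have h1 : C ≤ (B n + 2) ^ C := (Nat.lt_pow_self (by omega)).le
  have h2 : (B n + 2) ^ K + 1 ≤ (B n + 2) ^ (K + 1) := by
    have : 1 ≤ (B n + 2) ^ K := Nat.one_le_pow _ _ (by omega)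
    rw [pow_succ]
    nlinarith
  calc C * ((B n + 2) ^ K + 1) ^ C ≤ (B n + 2) ^ C * ((B n + 2) ^ (K + 1)) ^ C :=
        Nat.mul_le_mul h1 (Nat.pow_le_pow_left h2 _)
    _ = (B n + 2) ^ (C + (K + 1) * C) := by rw [← pow_mul, ← pow_add]

/-- Membership of the quotient of two elements in `Gam` from the coefficients. -/
theorem mem_Gam_of_ord {r c : ℕ} {E : FreeGroup (Fin r) →* (NC (Fin r) ℚ)ˣ} (hE : IsExpMag E)
    (p q g : FreeGroup (Fin r))
    (h : Ord (c + 1) (((E p : (NC (Fin r) ℚ)ˣ) : NC (Fin r) ℚ) * ((E q : (NC (Fin r) ℚ)ˣ) : NC (Fin r) ℚ) -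
      ((E g : (NC (Fin r) ℚ)ˣ) : NC (Fin r) ℚ) * ((E q : (NC (Fin r) ℚ)ˣ) : NC (Fin r) ℚ) *
        ((E p : (NC (Fin r) ℚ)ˣ) : NC (Fin r) ℚ))) :
    ⁅p, q⁆ * g⁻¹ ∈ Gam (fun _ : Fin r => 1) (c + 1) := by
  rw [hE.hgam]
  intro w hw
  rw [Pool.Agent.Helper43.Comm.wt_const_one] at hw
  have e : (((E (⁅p, q⁆ * g⁻¹) : (NC (Fin r) ℚ)ˣ) : NC (Fin r) ℚ) - 1) =
      (((E p : (NC (Fin r) ℚ)ˣ) : NC (Fin r) ℚ) * ((E q : (NC (Fin r) ℚ)ˣ) : NC (Fin r) ℚ) -
      ((E g : (NC (Fin r) ℚ)ˣ) : NC (Fin r) ℚ) * ((E q : (NC (Fin r) ℚ)ˣ) : NC (Fin r) ℚ) *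
        ((E p : (NC (Fin r) ℚ)ˣ) : NC (Fin r) ℚ)) * ((E (p⁻¹ * q⁻¹ * g⁻¹) : (NC (Fin r) ℚ)ˣ) : NC (Fin r) ℚ) := by
    rw [sub_mul]
    simp only [← Units.val_mul, ← map_mul]
    have e1 : p * q * (p⁻¹ * q⁻¹ * g⁻¹) = ⁅p, q⁆ * g⁻¹ := by
      rw [commutatorElement_def]; group
    have e2 : g * q * p * (p⁻¹ * q⁻¹ * g⁻¹) = 1 := by group
    rw [e1, e2, map_one, Units.val_one]
  rw [e]
  exact h.mul_unit w hw

/-- Words from a complete state. -/
theorem words_of_state {r c : ℕ} {E : FreeGroup (Fin r) →* (NC (Fin r) ℚ)ˣ} (hE : IsExpMag E)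
    {B : ℕ → ℕ} {g : ℕ → FreeGroup (Fin r)}
    {i j : ℕ} {x y : ℕ → FreeGroup (Fin r)} (H : State c E B g i j (c - i - j + 1) x y) :
    ∃ k : ℕ, ∀ᶠ n in (Filter.hyperfilter ℕ : Filter ℕ), ∃ u v : List (Fin r × Bool),
      u.length ≤ (B n + 2) ^ k ∧ v.length ≤ (B n + 2) ^ k ∧
      ⁅FreeGroup.mk u, FreeGroup.mk v⁆ * (g n)⁻¹ ∈ Gam (fun _ : Fin r => 1) (c + 1) := by
  classical
  have hi := H.hi
  have hij := H.hij
  have hc := H.hc
  obtain ⟨U, k₁, hU, hU2⟩ := short_words hE (N := i + (c - i - j + 1)) (by omega) H.bx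
  obtain ⟨V, k₂, hV, hV2⟩ := short_words hE (N := j + (c - i - j + 1)) (by omega) H.by'
  have key : ∀ (p z : ℕ → FreeGroup (Fin r)) (N : ℕ),
      (∀ᶠ n in (Filter.hyperfilter ℕ : Filter ℕ),
        Ord N (((E ((p n)⁻¹ * z n) : (NC (Fin r) ℚ)ˣ) : NC (Fin r) ℚ) - 1)) →
      Ord N (EX E p - EX E z) := by
    intro p z N h
    have h1 := (gm_ord N _).mpr h
    have e : EX E p - EX E z = -(EX E p *
        gm (fun n => ((E ((p n)⁻¹ * z n) : (NC (Fin r) ℚ)ˣ) : NC (Fin r) ℚ) - 1)) := by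
      rw [gm_sub, gm_one]
      have : EX E z = EX E p * gm (fun n => ((E ((p n)⁻¹ * z n) : (NC (Fin r) ℚ)ˣ) : NC (Fin r) ℚ)) := by
        change gm _ = gm _ * gm _
        rw [← gm_mul]
        congr 1
        funext n
        rw [← Units.val_mul, ← map_mul, mul_inv_cancel_left]
      rw [this]; noncomm_ring
    rw [e]
    exact ord_neg (ord_mul_left _ h1)
  have hx' := key _ _ _ hU2
  have hy' := key _ _ _ hV2
  have h1 := repl i j c hi (by omega) hc (EX E x) (EX E y) (EX E g)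
    (EX E fun n => FreeGroup.mk (U n)) (EX E fun n => FreeGroup.mk (V n)) H.hx H.hy H.hgo
    (ord_mono (by omega) hx') (ord_mono (by omega) hy')
  have h2 : Ord (c + 1) ((EX E fun n => FreeGroup.mk (U n)) * (EX E fun n => FreeGroup.mk (V n)) -
      EX E g * (EX E fun n => FreeGroup.mk (V n)) * (EX E fun n => FreeGroup.mk (U n))) := by
    intro w hw
    have h3 := h1 w hw
    rw [NC.sub_apply, H.heq w hw, sub_zero] at h3
    exact h3
  have h4 : (EX E fun n => FreeGroup.mk (U n)) * (EX E fun n => FreeGroup.mk (V n)) -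
      EX E g * (EX E fun n => FreeGroup.mk (V n)) * (EX E fun n => FreeGroup.mk (U n)) =
      gm (fun n => ((E (FreeGroup.mk (U n)) : (NC (Fin r) ℚ)ˣ) : NC (Fin r) ℚ) *
        ((E (FreeGroup.mk (V n)) : (NC (Fin r) ℚ)ˣ) : NC (Fin r) ℚ) -
      ((E (g n) : (NC (Fin r) ℚ)ˣ) : NC (Fin r) ℚ) * ((E (FreeGroup.mk (V n)) : (NC (Fin r) ℚ)ˣ) : NC (Fin r) ℚ) *
        ((E (FreeGroup.mk (U n)) : (NC (Fin r) ℚ)ˣ) : NC (Fin r) ℚ)) := by
    rw [gm_sub, gm_mul, gm_mul, gm_mul]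
    rfl
  rw [h4, gm_ord] at h2
  refine ⟨max k₁ k₂, h2.mono fun n hn => ⟨U n, V n, ?_, ?_, mem_Gam_of_ord hE _ _ _ hn⟩⟩
  · exact (hU n).trans (Nat.pow_le_pow_right (by omega) (le_max_left _ _))
  · exact (hV n).trans (Nat.pow_le_pow_right (by omega) (le_max_right _ _))

end

end Pool.Agent.Helper62.Comm
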